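import Mathlib
import Pool.Agent.H.MP_e07d6f_an.E

namespace Pool.Agent.Results.MP_a30514_an.NotLeft

open Pool.Agent.H.MP_e07d6f_an.Defs

theorem result :
    ∃ (E : Type) (_ : NormedAddCommGroup E) (_ : NormedSpace ℂ E) (_ : CompleteSpace E),
      ¬ ProjR (cmul (E := E)) (K E) cmul :=
  ⟨Pool.Agent.H.MP_e07d6f_an.L1, inferInstance, inferInstance, inferInstance,
    Pool.Agent.H.MP_e07d6f_an.finalL.1⟩

end Pool.Agent.Results.MP_a30514_an.NotLeft
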